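import Pool.Agent.Y5.V.Stm
import Pool.Agent.Y809.EK.CJ1

/-! The initial field (`S_DATV`). -/

open Set Filter Topology
open scoped ComplexConjugate

set_option autoImplicit false

namespace Pool.Agent.Y429.VL.DAT

open Pool.Agent.Y6.M (Z3 C3 Coef dt kc cj nsq len adv leray IsField energy)
open Pool.Agent.Y5.V
open Pool.Agent.Y5.D (pair vec)
open Pool.Agent.Y6.K (Em ivec nrm)
open Pool.Agent.Y302.Trunc (Lev am f)

/-- the real amplitudes -/
noncomputable def A (k : Z3) (j : Fin 3) : ℝ :=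
  if |k j| = 1 then 3 * (k j : ℝ) else -(2 / 3) * (k j : ℝ)

lemma dat_pos {k : Z3} (h : nsq k = 11) (j : Fin 3) :
    dat k j = -Complex.I * ((A k j / √528 : ℝ) : ℂ) := by
  unfold dat
  rw [if_pos h]
  rfl

lemma dat_neg {k : Z3} (h : nsq k ≠ 11) (j : Fin 3) : dat k j = 0 := by
  unfold dat
  rw [if_neg h]

lemma mem_iff (k : Z3) : k ∈ Lev 1 0 ↔ nsq k = 11 := by
  have h := @Pool.Agent.Y302.Trunc.mem_Lev_iff 0 0 k
  rw [pow_zero] at h
  rw [h]
  exact Iff.rfl

/-- three times the amplitude -/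
def BB (x : ℤ) : ℤ := if |x| = 1 then 9 * x else -2 * x

lemma chk : ∀ x ∈ Finset.Icc (-3 : ℤ) 3, ∀ y ∈ Finset.Icc (-3 : ℤ) 3,
    ∀ z ∈ Finset.Icc (-3 : ℤ) 3, x ^ 2 + y ^ 2 + z ^ 2 = 11 →
      x * BB x + y * BB y + z * BB z = 0 ∧ BB x ^ 2 + BB y ^ 2 + BB z ^ 2 = 198 ∧
      BB x = 3 * f 0 x ∧ BB y = 3 * f 0 y ∧ BB z = 3 * f 0 z := by
  decide +kernel

lemma A_eq (k : Z3) (j : Fin 3) : A k j = (BB (k j) : ℝ) / 3 := by
  unfold A BB
  split_ifs
  · push_cast; ring
  · push_cast; ring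

lemma facts {k : Z3} (h : nsq k = 11) :
    (∑ j, (k j : ℝ) * A k j = 0) ∧ (∑ j, A k j ^ 2 = 22) ∧
      (∀ j, A k j = (f 0 (k j) : ℝ)) := by
  have h1 : k 0 ^ 2 + k 1 ^ 2 + k 2 ^ 2 = 11 := by
    rw [← h]
    simp [nsq, Fin.sum_univ_three]
  have hm : ∀ x : ℤ, x ^ 2 ≤ 11 → x ∈ Finset.Icc (-3 : ℤ) 3 := by
    intro x hx
    rw [Finset.mem_Icc]
    constructor <;> nlinarith
  obtain ⟨h2, h3, h4, h5, h6⟩ := chk (k 0) (hm _ (by nlinarith [sq_nonneg (k 1), sq_nonneg (k 2)]))
    (k 1) (hm _ (by nlinarith [sq_nonneg (k 0), sq_nonneg (k 2)]))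
    (k 2) (hm _ (by nlinarith [sq_nonneg (k 1), sq_nonneg (k 0)])) h1
  have h2' : ((k 0 : ℤ) : ℝ) * (BB (k 0) : ℝ) + (k 1 : ℝ) * (BB (k 1) : ℝ) +
      (k 2 : ℝ) * (BB (k 2) : ℝ) = 0 := by exact_mod_cast h2
  have h3' : (BB (k 0) : ℝ) ^ 2 + (BB (k 1) : ℝ) ^ 2 + (BB (k 2) : ℝ) ^ 2 = 198 := by
    exact_mod_cast h3
  refine ⟨?_, ?_, ?_⟩
  · rw [Fin.sum_univ_three, A_eq, A_eq, A_eq]
    linarith
  · rw [Fin.sum_univ_three, A_eq, A_eq, A_eq]
    linarith
  · intro j
    rw [A_eq]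
    have h4' : (BB (k 0) : ℝ) = 3 * (f 0 (k 0) : ℝ) := by exact_mod_cast h4
    have h5' : (BB (k 1) : ℝ) = 3 * (f 0 (k 1) : ℝ) := by exact_mod_cast h5
    have h6' : (BB (k 2) : ℝ) = 3 * (f 0 (k 2) : ℝ) := by exact_mod_cast h6
    fin_cases j
    · show (BB (k 0) : ℝ) / 3 = _
      rw [h4']
      show _ = (f 0 (k 0) : ℝ)
      ring
    · show (BB (k 1) : ℝ) / 3 = _
      rw [h5']
      show _ = (f 0 (k 1) : ℝ)
      ring
    · show (BB (k 2) : ℝ) / 3 = _
      rw [h6']
      show _ = (f 0 (k 2) : ℝ)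
      ring

lemma sq528 : (√528 : ℝ) ^ 2 = 528 := Real.sq_sqrt (by norm_num)

lemma norm_dat {k : Z3} (h : nsq k = 11) (j : Fin 3) : ‖dat k j‖ ^ 2 = A k j ^ 2 / 528 := by
  rw [dat_pos h, norm_mul, norm_neg, Complex.norm_I, one_mul, Complex.norm_real, Real.norm_eq_abs,
    sq_abs, div_pow, sq528]

lemma nsq_neg (k : Z3) : nsq (-k) = nsq k := by
  simp [nsq]

lemma isField_dat : IsField dat := by
  constructor
  · funext j
    exact dat_neg (by simp [nsq]) j
  · intro k j
    by_cases h : nsq k = 11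
    · have h' : nsq (-k) = 11 := by rw [nsq_neg, h]
      rw [dat_pos h', dat_pos h]
      have hA : A (-k) j = -A k j := by
        unfold A
        simp only [Pi.neg_apply, abs_neg, Int.cast_neg]
        split_ifs <;> ring
      rw [hA, map_mul, map_neg, Complex.conj_I, Complex.conj_ofReal]
      push_cast
      ring
    · have h' : nsq (-k) ≠ 11 := by rw [nsq_neg]; exact h
      rw [dat_neg h', dat_neg h, map_zero]
  · intro k
    unfold dt kc
    by_cases h : nsq k = 11
    · have h1 : ∀ j, (k j : ℂ) * dat k j =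
          -Complex.I / ((√528 : ℝ) : ℂ) * (((k j : ℝ) * A k j : ℝ) : ℂ) := by
        intro j
        rw [dat_pos h]
        push_cast
        ring
      rw [Finset.sum_congr rfl fun j _ => h1 j, ← Finset.mul_sum, ← Complex.ofReal_sum,
        (facts h).1, Complex.ofReal_zero, mul_zero]
    · simp [dat_neg h]
  · intro q
    refine ⟨(√11) ^ q * 1, fun k j => ?_⟩
    by_cases h : nsq k = 11
    · have h1 : len k = √11 := by
        unfold len
        rw [h]
        norm_num
      rw [h1]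
      refine mul_le_mul_of_nonneg_left ?_ (by positivity)
      have h2 := norm_dat h j
      have h3 : A k j ^ 2 ≤ 22 := by
        rw [← (facts h).2.1]
        exact Finset.single_le_sum (f := fun j => A k j ^ 2) (fun _ _ => sq_nonneg _)
          (Finset.mem_univ j)
      nlinarith [norm_nonneg (dat k j)]
    · rw [dat_neg h, norm_zero, mul_zero]
      positivity

lemma sy_dat : Sy dat := by
  constructor
  · intro σ k i
    have h0 : nsq (fun j => k (σ j)) = nsq k := by
      unfold nsq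
      exact Equiv.sum_comp σ fun j => k j ^ 2
    unfold dat
    rw [h0]
  · intro ε hε k i
    have h0 : nsq (fun j => ε j * k j) = nsq k := by
      unfold nsq
      refine Finset.sum_congr rfl fun j _ => ?_
      show (ε j * k j) ^ 2 = k j ^ 2
      rcases hε j with h | h <;> rw [h] <;> ring
    by_cases h : nsq k = 11
    · rw [dat_pos (by rw [h0, h]), dat_pos h]
      have hA : A (fun j => ε j * k j) i = (ε i : ℝ) * A k i := by
        unfold A
        rcases hε i with h1 | h1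
        · simp only [h1, one_mul, Int.cast_one]
        · simp only [h1, neg_mul, one_mul, abs_neg, Int.cast_neg, Int.cast_one]
          split_ifs <;> ring
      rw [hA]
      push_cast
      ring
    · rw [dat_neg (by rw [h0]; exact h), dat_neg h, mul_zero]

lemma energy_dat : energy dat = 1 := by
  unfold energy
  rw [tsum_eq_sum (s := Lev 1 0)]
  · have h1 : ∀ k ∈ Lev 1 0, ∑ j, ‖dat k j‖ ^ 2 = 22 / 528 := by
      intro k hk
      have h := (mem_iff k).1 hk
      rw [Finset.sum_congr rfl fun j _ => norm_dat h j, ← Finset.sum_div, (facts h).2.1]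
    rw [Finset.sum_congr rfl h1, Finset.sum_const, Pool.Agent.Y809.EK.card_lev 0]
    norm_num
  · intro k hk
    have h : nsq k ≠ 11 := fun h => hk ((mem_iff k).2 h)
    simp [dat_neg h]

lemma wOf_dat : wOf dat = Em 0 := by
  funext k
  by_cases hk : k ∈ Lev 1 0
  · have h := (mem_iff k).1 hk
    rw [Pool.Agent.Y809.EK.Em_mem hk]
    ext j
    have h1 : (wOf dat k) j = (Complex.I * dat k j).re := rfl
    have h2 : ((√(nrm (0 % 4)))⁻¹ • ivec (am 1 0 k)) j = (√528)⁻¹ * (am 1 0 k j : ℝ) := rfl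
    have h3 : am 1 0 k j = f 0 (k j) := by
      show Pool.Agent.Y302.Trunc.fx 0 (k j / Pool.Agent.Y302.Trunc.sg 1 0) = f 0 (k j)
      have : Pool.Agent.Y302.Trunc.sg 1 0 = 1 := by
        rw [Pool.Agent.Y809.EK.sg_eq]
        norm_num
      rw [this, Int.ediv_one]
      rfl
    rw [h1, h2, h3, dat_pos h, ← (facts h).2.2 j, ← mul_assoc, mul_neg, Complex.I_mul_I, neg_neg,
      one_mul, Complex.ofReal_re]
    ring
  · have h : nsq k ≠ 11 := fun h => hk ((mem_iff k).2 h)
    have h1 : Em 0 k = 0 := if_neg hk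
    rw [h1]
    ext j
    show (Complex.I * dat k j).re = 0
    rw [dat_neg h, mul_zero, Complex.zero_re]

theorem t_DATV : S_DATV := by
  refine ⟨isField_dat, sy_dat, energy_dat, ?_, ?_⟩
  · unfold xc
    rw [wOf_dat]
    exact (Pool.Agent.Y809.EK.t_CJ1.2.2.2.2.2.2 0).2.2.1
  · intro n
    unfold xc
    rw [wOf_dat]
    unfold pair
    have h0 : ∀ k, inner ℝ (Em 0 k) (Em (n + 1) k) = (0 : ℝ) := by
      intro k
      by_cases hk : k ∈ Lev 1 0
      · by_cases hk' : k ∈ Lev 1 (n + 1)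
        · exfalso
          have h1 := (Pool.Agent.Y809.EK.mem_lev 0 k).1 hk
          have h2 := (Pool.Agent.Y809.EK.mem_lev (n + 1) k).1 hk'
          rw [h1] at h2
          have h3 : Pool.Agent.Y302.Trunc.rho 1 0 = Pool.Agent.Y302.Trunc.rho 1 (n + 1) := by
            exact_mod_cast h2
          have h4 : Pool.Agent.Y302.Trunc.rho 1 1 ≤ Pool.Agent.Y302.Trunc.rho 1 (n + 1) :=
            Pool.Agent.Y809.EK.rho_mono (Nat.le_add_left 1 n)
          have h5 : Pool.Agent.Y302.Trunc.rho 1 0 = 11 := by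
            rw [Pool.Agent.Y809.EK.rho_eq]; rfl
          have h6 : Pool.Agent.Y302.Trunc.rho 1 1 = 40 := by
            rw [Pool.Agent.Y809.EK.rho_eq]; rfl
          rw [← h3, h5, h6] at h4
          norm_num at h4
        · have h1 : Em (n + 1) k = 0 := if_neg hk'
          rw [h1, inner_zero_right]
      · have h1 : Em 0 k = 0 := if_neg hk
        rw [h1, inner_zero_left]
    simp only [h0, tsum_zero]

end Pool.Agent.Y429.VL.DAT
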